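import Pool.Agent.R443.Bin15

/-!
# `c_m(4n) - c_m(n)` for `m ≡ 15 (mod 16)`: the second part of Q2 fails

`Pool.Agent.R443.SK.S 2 m n` is the coefficient of `x^n` in
`(1-x)^(-m) ∏_{0 ≤ i ≤ n} (1 - x^(2^i))^(-m)` (the factors with `i > n` have no
influence on this coefficient), that is, `c_m(n)`.
-/

set_option autoImplicit false

namespace Pool.Agent.Results.MP_918176_nt.PartTwoFails

open Pool.Agent.R443.SK

/-- For every `k ≡ 3 (mod 4)`, so for `4k + 3 ≡ 15 (mod 16)`, and every `n ≥ 1`, the number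
`c_{4k+3}(4n) - c_{4k+3}(n)` is divisible by `2^(ν₂(n) + 7)`.  In particular for such `k` equality
`ν₂(c_{4k+3}(4n) - c_{4k+3}(n)) = ν₂(n) + 6` holds for no `n ≥ 1`. -/
theorem result (k : ℕ) (hk : k % 4 = 3) :
    (∀ n : ℕ, 1 ≤ n →
      (2 : ℤ) ^ (padicValNat 2 n + 7) ∣ S 2 (4 * k + 3) (4 * n) - S 2 (4 * k + 3) n) ∧
    ∀ n : ℕ, 1 ≤ n → ¬ ((2 : ℤ) ^ (padicValNat 2 n + 6) ∣
        S 2 (4 * k + 3) (4 * n) - S 2 (4 * k + 3) n ∧
      ¬ (2 : ℤ) ^ (padicValNat 2 n + 6 + 1) ∣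
        S 2 (4 * k + 3) (4 * n) - S 2 (4 * k + 3) n) := by
  have h : ∀ n : ℕ, 1 ≤ n →
      (2 : ℤ) ^ (padicValNat 2 n + 7) ∣ S 2 (4 * k + 3) (4 * n) - S 2 (4 * k + 3) n :=
    fun n hn => Pool.Agent.R443.Bin.diff_dvd (4 * k + 3) n (by omega) (by omega)
  exact ⟨h, fun n hn hc => hc.2 (h n hn)⟩

end Pool.Agent.Results.MP_918176_nt.PartTwoFails
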