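import Pool.Agent.R226.BPC

/-!
# The 2-adic valuation of `c_m(4n) - c_m(n)`
-/

set_option autoImplicit false

open Pool.Agent.R226.BP

namespace Pool.Agent.Results.MP_918176_nt.Valuations

/-- the 2-adic valuation, with value `⊤` at `0` -/
noncomputable def nu2 (a : ℤ) : ℕ∞ := emultiplicity 2 a

/-- the inequalities and the infinitude claims of Q2, for a fixed `k` -/
def Q2At (k : ℕ) : Prop :=
  (∀ n : ℕ, 1 ≤ n → nu2 n + 3 ≤ nu2 (c (4 * k + 1) (4 * n) - c (4 * k + 1) n)) ∧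
  (∀ n : ℕ, 1 ≤ n → nu2 n + 6 ≤ nu2 (c (4 * k + 3) (4 * n) - c (4 * k + 3) n)) ∧
  {n : ℕ | 1 ≤ n ∧ nu2 (c (4 * k + 1) (4 * n) - c (4 * k + 1) n) = nu2 n + 3}.Infinite ∧
  {n : ℕ | 1 ≤ n ∧ nu2 (c (4 * k + 3) (4 * n) - c (4 * k + 3) n) = nu2 n + 6}.Infinite

lemma nu2_pow_mul (v : ℕ) {u : ℤ} (hu : Odd u) : nu2 (2 ^ v * u) = v := by
  unfold nu2
  rw [emultiplicity_eq_coe]
  refine ⟨dvd_mul_right _ _, fun h => ?_⟩
  rw [pow_succ] at h
  have h2 := (mul_dvd_mul_iff_left (by positivity : (2 : ℤ) ^ v ≠ 0)).mp h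
  rw [← even_iff_two_dvd] at h2
  exact (Int.not_even_iff_odd.mpr hu) h2

lemma exists_odd {n : ℕ} (hn : 1 ≤ n) : ∃ q, n = 2 ^ padicValNat 2 n * q ∧ Odd q := by
  obtain ⟨q, hq⟩ := pow_padicValNat_dvd (p := 2) (n := n)
  refine ⟨q, hq, ?_⟩
  by_contra h
  rw [Nat.not_odd_iff_even] at h
  obtain ⟨s, hs⟩ := h
  refine pow_succ_padicValNat_not_dvd (p := 2) (Nat.one_le_iff_ne_zero.mp hn) ⟨s, ?_⟩
  rw [pow_succ]
  conv_lhs => rw [hq, hs]
  ring

lemma nu2_nat {n : ℕ} (hn : 1 ≤ n) : nu2 n = padicValNat 2 n := by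
  obtain ⟨q, hq, hodd⟩ := exists_odd hn
  have h1 : (n : ℤ) = 2 ^ padicValNat 2 n * (q : ℤ) := by exact_mod_cast hq
  have h2 := nu2_pow_mul (padicValNat 2 n) (u := q) (by exact_mod_cast hodd)
  rw [← h1] at h2
  exact h2

lemma coeff_Ds (m n : ℕ) : PowerSeries.coeff n (Ds m) = c m (4 * n) - c m n := by simp [Ds]

theorem even_case (k n : ℕ) (hk : 1 ≤ k) (hn : 1 ≤ n) :
    nu2 (c (2 * k) (4 * n) - c (2 * k) n) = nu2 n + 2 * nu2 k + 3 := by
  obtain ⟨q, hq, hodd⟩ := exists_odd hn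
  obtain ⟨u, hu, h⟩ := exact_of_good (m := 2 * k) (even_two_mul k) (good_even hk)
    (padicValNat 2 n) q hodd
  rw [← Ds_eq, ← hq, coeff_Ds] at h
  rw [h, nu2_pow_mul _ hu, nu2_nat hn, nu2_nat hk]
  push_cast
  ring

theorem odd_lower (l j : ℕ) (hj : 1 ≤ j) (h : 2 ^ j ∣ l + 1) (n : ℕ) (hn : 1 ≤ n) :
    nu2 n + (j + 4 : ℕ) ≤ nu2 (c (2 * l + 1) (4 * n) - c (2 * l + 1) n) := by
  obtain ⟨q, hq, hodd⟩ := exists_odd hn
  obtain ⟨g, g', -, hG⟩ := odd_case l j h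
  have hW : Weak (j + 4) (Us (tp ((2 * l + 1 : ℕ) : ℤ) * Polynomial.aeval t
      (Polynomial.Chebyshev.T ℤ ((2 * l + 1 : ℕ) : ℤ))) - 1) := by
    obtain ⟨i, rfl⟩ : ∃ i, j = i + 1 := ⟨j - 1, by omega⟩
    refine ⟨2 ^ i * g ^ 2 + g', ?_⟩
    rw [hG]
    simp only [map_add, map_mul, map_pow, map_ofNat]
    ring
  have h2 := dvd_of_weak (m := 2 * l + 1) hW (padicValNat 2 n) q
  rw [← Ds_eq, ← hq, coeff_Ds] at h2
  rw [nu2_nat hn]
  unfold nu2
  have h3 := le_emultiplicity_of_pow_dvd h2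
  refine le_trans (le_of_eq ?_) h3
  push_cast
  ring

theorem odd_lower0 (l : ℕ) (n : ℕ) (hn : 1 ≤ n) :
    nu2 n + 3 ≤ nu2 (c (2 * l + 1) (4 * n) - c (2 * l + 1) n) := by
  obtain ⟨q, hq, hodd⟩ := exists_odd hn
  obtain ⟨g, g', -, hG⟩ := odd_case l 0 (one_dvd _)
  have hW : Weak 3 (Us (tp ((2 * l + 1 : ℕ) : ℤ) * Polynomial.aeval t
      (Polynomial.Chebyshev.T ℤ ((2 * l + 1 : ℕ) : ℤ))) - 1) := by
    refine ⟨g ^ 2 + 2 * g', ?_⟩
    rw [hG]
    simp only [map_add, map_mul, map_pow, map_ofNat]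
    ring
  have h2 := dvd_of_weak (m := 2 * l + 1) hW (padicValNat 2 n) q
  rw [← Ds_eq, ← hq, coeff_Ds] at h2
  rw [nu2_nat hn]
  unfold nu2
  have h3 := le_emultiplicity_of_pow_dvd h2
  refine le_trans (le_of_eq ?_) h3
  push_cast
  ring

theorem odd_exact (l : ℕ) (hl : Even l) (n : ℕ) (hn : Odd n) :
    nu2 (c (2 * l + 1) (4 * n) - c (2 * l + 1) n) = nu2 n + 3 := by
  obtain ⟨g, g', hg, hG⟩ := odd_case l 0 (one_dvd _)
  have hn1 : 1 ≤ n := hn.pos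
  have hodd : Odd (Polynomial.eval 1 (g ^ 2 + 2 * g')) := by
    rw [Polynomial.eval_add, Polynomial.eval_mul, Polynomial.eval_pow, Polynomial.eval_ofNat]
    have : Odd (Polynomial.eval 1 g) := by
      rw [pow_zero, one_mul] at hg
      rw [← hg]
      have : Even (l : ℤ) := by exact_mod_cast hl
      exact this.add_one
    exact this.pow.add_even (even_two_mul _)
  have h1 := coeff_odd (2 * l + 1) _ hodd hn
  have h2 := Ds_eq (2 * l + 1)
  have h3 : Ds (2 * l + 1) = 2 ^ 3 * (Cs (2 * l + 1) *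
      (y * Polynomial.aeval t (g ^ 2 + 2 * g'))) := by
    rw [h2, hG]
    simp only [map_add, map_mul, map_pow, map_ofNat]
    ring
  have h4 : c (2 * l + 1) (4 * n) - c (2 * l + 1) n = 2 ^ 3 * PowerSeries.coeff n
      (Cs (2 * l + 1) * (y * Polynomial.aeval t (g ^ 2 + 2 * g'))) := by
    rw [← coeff_Ds, h3, two_pow_mul_coeff]
  rw [h4, nu2_pow_mul _ h1]
  have h5 : nu2 n = 0 := by
    have := nu2_pow_mul 0 (u := n) (by exact_mod_cast hn)
    simpa using this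
  rw [h5]; rfl

/-- Q1 holds; Q2 fails. More precisely the first inequality of Q2 holds for all `k`, with equality
at every odd `n`, while for every `m ≡ 15 mod 16` (that is `k ≡ 3 mod 4` in the second inequality
of Q2) one has `ν₂(c_m(4n) - c_m(n)) ≥ ν₂(n) + 7` for all `n ≥ 1`, so that equality never holds
in the second inequality. -/
theorem result :
    (∀ k n : ℕ, 1 ≤ k → 1 ≤ n →
      nu2 (c (2 * k) (4 * n) - c (2 * k) n) = nu2 n + 2 * nu2 k + 3) ∧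
    (¬ ∀ k : ℕ, Q2At k) ∧
    (∀ k n : ℕ, 1 ≤ n → nu2 n + 3 ≤ nu2 (c (4 * k + 1) (4 * n) - c (4 * k + 1) n)) ∧
    (∀ k n : ℕ, Odd n → nu2 (c (4 * k + 1) (4 * n) - c (4 * k + 1) n) = nu2 n + 3) ∧
    (∀ m j n : ℕ, 2 ≤ j → 2 ^ j ∣ m + 1 → 1 ≤ n →
      nu2 n + (j + 3 : ℕ) ≤ nu2 (c m (4 * n) - c m n)) := by
  have hlast : ∀ m j n : ℕ, 2 ≤ j → 2 ^ j ∣ m + 1 → 1 ≤ n →
      nu2 n + (j + 3 : ℕ) ≤ nu2 (c m (4 * n) - c m n) := by
    intro m j n hj hm hn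
    obtain ⟨i, rfl⟩ : ∃ i, j = i + 1 := ⟨j - 1, by omega⟩
    obtain ⟨q, hq⟩ := hm
    have hpos : 0 < 2 ^ i * q := by
      rcases Nat.eq_zero_or_pos q with h0 | h0
      · subst h0; simp at hq
      · positivity
    have hl : m = 2 * (2 ^ i * q - 1) + 1 := by
      have : m + 1 = 2 * (2 ^ i * q) := by rw [hq]; ring
      omega
    have := odd_lower (2 ^ i * q - 1) i (by omega) (by
      rw [Nat.sub_add_cancel hpos]; exact dvd_mul_right _ _) n hn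
    rw [← hl] at this
    exact this
  refine ⟨fun k n hk hn => even_case k n hk hn, ?_, ?_, ?_, hlast⟩
  · intro h
    obtain ⟨-, -, -, h4⟩ := h 3
    apply h4
    convert Set.finite_empty
    ext n
    simp only [Set.mem_ofPred_eq, Set.mem_empty_iff_false, iff_false, not_and]
    intro hn he
    have := hlast (4 * 3 + 3) 4 n (by norm_num) (by norm_num) hn
    rw [he, nu2_nat hn] at this
    norm_cast at this
    omega
  · intro k n hn
    have := odd_lower0 (2 * k) n hn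
    rwa [show 2 * (2 * k) + 1 = 4 * k + 1 by ring] at this
  · intro k n hn
    have := odd_exact (2 * k) (even_two_mul k) n hn
    rwa [show 2 * (2 * k) + 1 = 4 * k + 1 by ring] at this

end Pool.Agent.Results.MP_918176_nt.Valuations
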